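import Mathlib

set_option autoImplicit false

open Finset

namespace Pool.Agent.Lib.MP_79d03b_co

/-- Finite families of finite sets of naturals. -/
abbrev Fam : Type := Finset (Finset ℕ)

/-- All members have `k` elements. -/
def Sz (A : Fam) (k : ℕ) : Prop := ∀ T ∈ A, T.card = k

lemma Sz.mono {A B : Fam} {k : ℕ} (h : Sz B k) (hAB : A ⊆ B) : Sz A k :=
  fun T hT => h T (hAB hT)

lemma Sz.shadow {A : Fam} {k : ℕ} (h : Sz A k) : Sz (shadow A) (k - 1) := by
  intro T hT
  obtain ⟨S, hS, a, ha, rfl⟩ := mem_shadow_iff.1 hT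
  rw [card_erase_of_mem ha, h S hS]

lemma Sz.mem {A : Fam} {k : ℕ} (h : Sz A (k + 1)) (a : ℕ) : Sz (A.memberSubfamily a) k := by
  intro T hT
  obtain ⟨h1, h2⟩ := mem_memberSubfamily.1 hT
  have := h _ h1
  rw [card_insert_of_notMem h2] at this
  omega

lemma Sz.non {A : Fam} {k : ℕ} (h : Sz A k) (a : ℕ) : Sz (A.nonMemberSubfamily a) k :=
  fun T hT => h T (mem_nonMemberSubfamily.1 hT).1

lemma shadow_of_sz_zero {A : Fam} (h : Sz A 0) : shadow A = ∅ := by
  ext T
  simp only [notMem_empty, iff_false]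
  intro hT
  obtain ⟨S, hS, a, ha, -⟩ := mem_shadow_iff.1 hT
  have := h S hS
  rw [card_eq_zero] at this
  subst this
  simp at ha

lemma mem_shadow_eq (A : Fam) (a : ℕ) :
    (shadow A).memberSubfamily a = shadow (A.memberSubfamily a) := by
  ext T
  simp only [mem_memberSubfamily, mem_shadow_iff_insert_mem]
  constructor
  · rintro ⟨⟨e, he, h⟩, ha⟩
    simp only [mem_insert, not_or] at he
    refine ⟨e, he.2, ?_, ?_⟩
    · rwa [insert_comm]
    · simp only [mem_insert, not_or]
      exact ⟨fun h' => he.1 h'.symm, ha⟩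
  · rintro ⟨e, he, h, ha⟩
    simp only [mem_insert, not_or] at ha
    refine ⟨⟨e, ?_, ?_⟩, ha.2⟩
    · simp only [mem_insert, not_or]
      exact ⟨fun h' => ha.1 h'.symm, he⟩
    · rwa [insert_comm]

lemma non_shadow_eq (A : Fam) (a : ℕ) :
    (shadow A).nonMemberSubfamily a = A.memberSubfamily a ∪ shadow (A.nonMemberSubfamily a) := by
  ext T
  simp only [mem_union, mem_memberSubfamily, mem_nonMemberSubfamily, mem_shadow_iff_insert_mem]
  constructor
  · rintro ⟨⟨e, he, h⟩, ha⟩
    by_cases hea : e = a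
    · subst hea; exact Or.inl ⟨h, ha⟩
    · refine Or.inr ⟨e, he, h, ?_⟩
      simp only [mem_insert, not_or]
      exact ⟨fun h' => hea h'.symm, ha⟩
  · rintro (⟨h, ha⟩ | ⟨e, he, h, ha⟩)
    · exact ⟨⟨a, ha, h⟩, ha⟩
    · simp only [mem_insert, not_or] at ha
      exact ⟨⟨e, he, h⟩, ha.2⟩

lemma card_shadow_eq (A : Fam) (a : ℕ) :
    (shadow A).card = (shadow (A.memberSubfamily a)).card +
      (A.memberSubfamily a ∪ shadow (A.nonMemberSubfamily a)).card := by
  rw [← card_memberSubfamily_add_card_nonMemberSubfamily a (shadow A), mem_shadow_eq,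
    non_shadow_eq]

lemma shadow_union (A B : Fam) : shadow (A ∪ B) = shadow A ∪ shadow B := by
  ext T
  simp only [mem_union, mem_shadow_iff_insert_mem]
  constructor
  · rintro ⟨e, he, h | h⟩
    · exact Or.inl ⟨e, he, h⟩
    · exact Or.inr ⟨e, he, h⟩
  · rintro (⟨e, he, h⟩ | ⟨e, he, h⟩)
    · exact ⟨e, he, Or.inl h⟩
    · exact ⟨e, he, Or.inr h⟩

lemma fam_ext {A B : Fam} (a : ℕ) (h1 : A.memberSubfamily a = B.memberSubfamily a)
    (h2 : A.nonMemberSubfamily a = B.nonMemberSubfamily a) : A = B := by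
  ext T
  by_cases ha : a ∈ T
  · have e1 : T.erase a ∈ A.memberSubfamily a ↔ T.erase a ∈ B.memberSubfamily a := by rw [h1]
    simpa [mem_memberSubfamily, insert_erase ha] using e1
  · have e1 : T ∈ A.nonMemberSubfamily a ↔ T ∈ B.nonMemberSubfamily a := by rw [h2]
    simpa [mem_nonMemberSubfamily, ha] using e1

/-- `A` is a cone at `a`: the shadow of the members avoiding `a` lies in the link of `a`. -/
def Cone (a : ℕ) (A : Fam) : Prop := shadow (A.nonMemberSubfamily a) ⊆ A.memberSubfamily a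

lemma Cone.non_shadow {a : ℕ} {A : Fam} (h : Cone a A) :
    (Finset.shadow A).nonMemberSubfamily a = A.memberSubfamily a := by
  rw [non_shadow_eq]
  exact union_eq_left.2 h

lemma Cone.shadow {a : ℕ} {A : Fam} (h : Cone a A) : Cone a (Finset.shadow A) := by
  unfold Cone
  rw [h.non_shadow, mem_shadow_eq]

lemma Cone.iterate {a : ℕ} {A : Fam} (h : Cone a A) (j : ℕ) : Cone a (Finset.shadow^[j] A) := by
  induction j with
  | zero => exact h
  | succ j ih => rw [Function.iterate_succ_apply']; exact ih.shadow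

lemma mem_iterate (A : Fam) (a j : ℕ) :
    (shadow^[j] A).memberSubfamily a = shadow^[j] (A.memberSubfamily a) := by
  induction j with
  | zero => rfl
  | succ j ih => rw [Function.iterate_succ_apply', Function.iterate_succ_apply', mem_shadow_eq, ih]

lemma Cone.card_iterate {a : ℕ} {A : Fam} (h : Cone a A) (j : ℕ) :
    (Finset.shadow^[j + 1] A).card = (Finset.shadow^[j + 1] (A.memberSubfamily a)).card +
      (Finset.shadow^[j] (A.memberSubfamily a)).card := by
  rw [← card_memberSubfamily_add_card_nonMemberSubfamily a (Finset.shadow^[j + 1] A), mem_iterate,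
    Function.iterate_succ_apply' Finset.shadow j A, (h.iterate j).non_shadow, mem_iterate]

lemma Cone.card_shadow {a : ℕ} {A : Fam} (h : Cone a A) :
    (Finset.shadow A).card = (Finset.shadow (A.memberSubfamily a)).card +
      (A.memberSubfamily a).card := h.card_iterate 0

/-- Shifted families on the ground set `[m, ∞)`. -/
def Shifted (m : ℕ) (A : Fam) : Prop :=
  (∀ T ∈ A, ∀ y ∈ T, m ≤ y) ∧
    ∀ T ∈ A, ∀ y ∈ T, ∀ x, m ≤ x → x < y → x ∉ T → insert x (T.erase y) ∈ A

lemma Shifted.cone {m : ℕ} {A : Fam} (h : Shifted m A) : Cone m A := by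
  intro Z hZ
  obtain ⟨T, hT, y, hy, rfl⟩ := mem_shadow_iff.1 hZ
  obtain ⟨hT, hm⟩ := mem_nonMemberSubfamily.1 hT
  have h1 := h.1 T hT y hy
  have h2 : m ≠ y := fun e => hm (e ▸ hy)
  refine mem_memberSubfamily.2 ⟨h.2 T hT y hy m le_rfl (by omega) hm, ?_⟩
  simp [hm]

lemma Shifted.mem {m : ℕ} {A : Fam} (h : Shifted m A) : Shifted (m + 1) (A.memberSubfamily m) := by
  constructor
  · intro T hT y hy
    obtain ⟨hT, hm⟩ := mem_memberSubfamily.1 hT
    have h1 := h.1 _ hT y (mem_insert_of_mem hy)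
    have h2 : m ≠ y := fun e => hm (e ▸ hy)
    omega
  · intro T hT y hy x hx hxy hxT
    obtain ⟨hT, hm⟩ := mem_memberSubfamily.1 hT
    have h2 : m ≠ y := fun e => hm (e ▸ hy)
    have h3 := h.2 _ hT y (mem_insert_of_mem hy) x (by omega) hxy (by
      simp only [mem_insert, not_or]; exact ⟨by omega, hxT⟩)
    refine mem_memberSubfamily.2 ⟨?_, ?_⟩
    · rw [erase_insert_of_ne h2, insert_comm] at h3
      exact h3
    · simp only [mem_insert, mem_erase, not_or, not_and]
      exact ⟨by omega, fun _ => hm⟩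

lemma Shifted.non {m : ℕ} {A : Fam} (h : Shifted m A) :
    Shifted (m + 1) (A.nonMemberSubfamily m) := by
  constructor
  · intro T hT y hy
    obtain ⟨hT, hm⟩ := mem_nonMemberSubfamily.1 hT
    have h1 := h.1 _ hT y hy
    have h2 : m ≠ y := fun e => hm (e ▸ hy)
    omega
  · intro T hT y hy x hx hxy hxT
    obtain ⟨hT, hm⟩ := mem_nonMemberSubfamily.1 hT
    refine mem_nonMemberSubfamily.2 ⟨h.2 _ hT y hy x (by omega) hxy hxT, ?_⟩
    simp only [mem_insert, mem_erase, not_or, not_and]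
    exact ⟨by omega, fun _ => hm⟩

/-- Replace `y` by `x` when possible. -/
def sw (x y : ℕ) (T : Finset ℕ) : Finset ℕ :=
  if y ∈ T ∧ x ∉ T then insert x (T.erase y) else T

/-- The map used by the shift. -/
def tau (x y : ℕ) (A : Fam) (T : Finset ℕ) : Finset ℕ :=
  if sw x y T ∈ A then T else sw x y T

/-- The shift of a family. -/
def sh (x y : ℕ) (A : Fam) : Fam := A.image (tau x y A)

lemma ins_erase_back {x y : ℕ} {T : Finset ℕ} (hy : y ∈ T) (hx : x ∉ T) :
    insert y ((insert x (T.erase y)).erase x) = T := by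
  rw [erase_insert (by simp [hx]), insert_erase hy]

lemma mem_sh {x y : ℕ} (hxy : x ≠ y) {A : Fam} {Z : Finset ℕ} :
    Z ∈ sh x y A ↔
      (Z ∈ A ∧ sw x y Z ∈ A) ∨ (x ∈ Z ∧ y ∉ Z ∧ insert y (Z.erase x) ∈ A) := by
  unfold sh
  rw [mem_image]
  constructor
  · rintro ⟨T, hT, rfl⟩
    unfold tau
    split_ifs with h
    · exact Or.inl ⟨hT, h⟩
    · right
      have hc : y ∈ T ∧ x ∉ T := by
        by_contra hc
        apply h
        unfold sw
        rw [if_neg hc]
        exact hT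
      have e : sw x y T = insert x (T.erase y) := by unfold sw; rw [if_pos hc]
      rw [e]
      refine ⟨mem_insert_self _ _, ?_, ?_⟩
      · simp [hxy.symm]
      · rw [ins_erase_back hc.1 hc.2]; exact hT
  · rintro (⟨h1, h2⟩ | ⟨h1, h2, h3⟩)
    · exact ⟨Z, h1, by unfold tau; rw [if_pos h2]⟩
    · by_cases hZ : Z ∈ A
      · refine ⟨Z, hZ, ?_⟩
        have e : sw x y Z = Z := by unfold sw; rw [if_neg (fun h => h2 h.1)]
        unfold tau
        rw [e, if_pos hZ]
      · refine ⟨insert y (Z.erase x), h3, ?_⟩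
        have e : sw x y (insert y (Z.erase x)) = Z := by
          unfold sw
          rw [if_pos ⟨mem_insert_self _ _, by simp [hxy]⟩]
          exact ins_erase_back h1 h2
        unfold tau
        rw [e, if_neg hZ]

lemma tau_injOn (x y : ℕ) (A : Fam) : Set.InjOn (tau x y A) A := by
  intro T hT T' hT' h
  have hT : T ∈ A := hT
  have hT' : T' ∈ A := hT'
  unfold tau at h
  split_ifs at h with h1 h2 h2
  · exact h
  · exact absurd (h ▸ hT) h2
  · exact absurd (h ▸ hT') h1
  · have hc : y ∈ T ∧ x ∉ T := by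
      by_contra hc
      apply h1
      unfold sw
      rw [if_neg hc]
      exact hT
    have hc' : y ∈ T' ∧ x ∉ T' := by
      by_contra hc
      apply h2
      unfold sw
      rw [if_neg hc]
      exact hT'
    unfold sw at h
    rw [if_pos hc, if_pos hc'] at h
    rw [← ins_erase_back hc.1 hc.2, h, ins_erase_back hc'.1 hc'.2]

lemma card_sh (x y : ℕ) (A : Fam) : (sh x y A).card = A.card :=
  card_image_of_injOn (tau_injOn x y A)

lemma card_sw (x y : ℕ) (T : Finset ℕ) : (sw x y T).card = T.card := by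
  unfold sw
  split_ifs with h
  · rw [card_insert_of_notMem (by simp [h.2]), card_erase_add_one h.1]
  · rfl

lemma Sz.sh {A : Fam} {k : ℕ} (h : Sz A k) (x y : ℕ) : Sz (sh x y A) k := by
  intro Z hZ
  obtain ⟨T, hT, rfl⟩ := mem_image.1 hZ
  unfold tau
  split_ifs
  · exact h T hT
  · rw [card_sw, h T hT]

lemma shadow_sh_subset {x y : ℕ} (hxy : x ≠ y) (A : Fam) :
    shadow (sh x y A) ⊆ sh x y (shadow A) := by
  intro Z hZ
  obtain ⟨e, he, hT⟩ := mem_shadow_iff_insert_mem.1 hZ
  rw [mem_sh hxy] at hT ⊢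
  rcases hT with ⟨h1, h2⟩ | ⟨h1, h2, h3⟩
  · left
    have hZ' : Z ∈ shadow A := mem_shadow_iff_insert_mem.2 ⟨e, he, h1⟩
    refine ⟨hZ', ?_⟩
    by_cases hc : y ∈ Z ∧ x ∉ Z
    · have e1 : sw x y Z = insert x (Z.erase y) := by unfold sw; rw [if_pos hc]
      rw [e1]
      by_cases hex : e = x
      · subst hex
        rw [← erase_insert_of_ne hxy]
        exact erase_mem_shadow h1 (mem_insert_of_mem hc.1)
      · have hey : e ≠ y := fun h => he (h ▸ hc.1)
        have e2 : sw x y (insert e Z) = insert x ((insert e Z).erase y) := by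
          unfold sw
          rw [if_pos ⟨mem_insert_of_mem hc.1, by
            simp only [mem_insert, not_or]; exact ⟨fun h => hex h.symm, hc.2⟩⟩]
        rw [e2, erase_insert_of_ne hey, insert_comm] at h2
        refine mem_shadow_iff_insert_mem.2 ⟨e, ?_, h2⟩
        simp [hex, he]
    · have e1 : sw x y Z = Z := by unfold sw; rw [if_neg hc]
      rw [e1]; exact hZ'
  · have hyZ : y ∉ Z := fun h => h2 (mem_insert_of_mem h)
    by_cases hex : e = x
    · subst hex
      rw [erase_insert he] at h3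
      left
      have hZ' : Z ∈ shadow A := mem_shadow_iff_insert_mem.2 ⟨y, hyZ, h3⟩
      have e1 : sw e y Z = Z := by unfold sw; rw [if_neg (fun h => hyZ h.1)]
      rw [e1]
      exact ⟨hZ', hZ'⟩
    · right
      have hxZ : x ∈ Z := by
        rcases mem_insert.1 h1 with h | h
        · exact absurd h.symm hex
        · exact h
      have hey : e ≠ y := fun h => h2 (h ▸ mem_insert_self _ _)
      refine ⟨hxZ, hyZ, mem_shadow_iff_insert_mem.2 ⟨e, ?_, ?_⟩⟩
      · simp [hey, he]
      · rw [erase_insert_of_ne hex, insert_comm] at h3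
        exact h3

lemma card_shadow_sh_le {x y : ℕ} (hxy : x ≠ y) (A : Fam) :
    (shadow (sh x y A)).card ≤ (shadow A).card := by
  rw [← card_sh x y (shadow A)]
  exact card_le_card (shadow_sh_subset hxy A)

/-- The configuration that makes a shift lower the `j`-th shadow. -/
def Bad (A : Fam) (x y : ℕ) (P : Finset ℕ) : Prop :=
  x ∉ P ∧ y ∉ P ∧ (∃ R ∈ A, insert x P ⊆ R) ∧ (∃ B ∈ A, insert y P ⊆ B) ∧
    (∀ T ∈ A, P ⊆ T → x ∈ T → y ∉ T) ∧
    (∀ T : Finset ℕ, x ∉ T → y ∉ T → P ⊆ T → insert x T ∈ A → insert y T ∉ A)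

lemma mem_iter {A : Fam} {k j : ℕ} (h : Sz A k) {Z : Finset ℕ} :
    Z ∈ shadow^[j] A ↔ (∃ T ∈ A, Z ⊆ T) ∧ Z.card + j = k := by
  rw [mem_shadow_iterate_iff_exists_mem_card_add]
  constructor
  · rintro ⟨T, hT, h1, h2⟩
    exact ⟨⟨T, hT, h1⟩, by rw [← h2, h T hT]⟩
  · rintro ⟨⟨T, hT, h1⟩, h2⟩
    exact ⟨T, hT, h1, by rw [h2, h T hT]⟩

lemma mem_sh_of_mem {x y : ℕ} (hxy : x ≠ y) {A : Fam} {T : Finset ℕ} (hT : T ∈ A)
    (hx : x ∈ T) : T ∈ sh x y A := by
  rw [mem_sh hxy]
  have e1 : sw x y T = T := by unfold sw; rw [if_neg (fun h => h.2 hx)]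
  rw [e1]
  exact Or.inl ⟨hT, hT⟩

lemma sw_mem_sh {x y : ℕ} (hxy : x ≠ y) {A : Fam} {T : Finset ℕ} (hT : T ∈ A) :
    sw x y T ∈ sh x y A := by
  by_cases hc : y ∈ T ∧ x ∉ T
  · have e1 : sw x y T = insert x (T.erase y) := by unfold sw; rw [if_pos hc]
    rw [e1, mem_sh hxy]
    right
    refine ⟨mem_insert_self _ _, by simp [hxy.symm], ?_⟩
    rw [ins_erase_back hc.1 hc.2]; exact hT
  · have e1 : sw x y T = T := by unfold sw; rw [if_neg hc]
    rw [e1, mem_sh hxy, e1]
    exact Or.inl ⟨hT, hT⟩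

lemma sh_iter_subset {x y : ℕ} (hxy : x ≠ y) {A : Fam} {k j : ℕ} (h : Sz A k)
    (hno : ∀ P : Finset ℕ, P.card + 1 + j = k → ¬ Bad A x y P) :
    sh x y (shadow^[j] A) ⊆ shadow^[j] (sh x y A) := by
  intro Z hZ
  rw [mem_iter (h.sh x y)]
  rw [mem_sh hxy, mem_iter h, mem_iter h, mem_iter h] at hZ
  rcases hZ with ⟨⟨⟨T, hT, hZT⟩, hc⟩, ⟨⟨T', hT', hZT'⟩, -⟩⟩ | ⟨h1, h2, ⟨T, hT, hZT⟩, hc⟩
  · refine ⟨?_, hc⟩
    by_cases hq : y ∈ Z ∧ x ∉ Z
    · have e1 : sw x y Z = insert x (Z.erase y) := by unfold sw; rw [if_pos hq]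
      rw [e1] at hZT'
      have hP : (Z.erase y).card + 1 + j = k := by rw [card_erase_add_one hq.1]; exact hc
      have hb := hno _ hP
      unfold Bad at hb
      by_contra hcon
      apply hb
      refine ⟨by simp [hq.2], by simp, ⟨T', hT', hZT'⟩, ⟨T, hT, by rwa [insert_erase hq.1]⟩,
        ?_, ?_⟩
      · intro U hU hPU hxU hyU
        apply hcon
        refine ⟨U, mem_sh_of_mem hxy hU hxU, ?_⟩
        rw [← insert_erase hq.1]
        exact insert_subset hyU hPU
      · intro U hxU hyU hPU hx hy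
        apply hcon
        refine ⟨insert y U, ?_, ?_⟩
        · rw [mem_sh hxy]
          left
          refine ⟨hy, ?_⟩
          have e2 : sw x y (insert y U) = insert x U := by
            unfold sw
            rw [if_pos ⟨mem_insert_self _ _, by simp [hxy, hxU]⟩, erase_insert hyU]
          rw [e2]; exact hx
        · rw [← insert_erase hq.1]
          exact insert_subset_insert _ hPU
    · refine ⟨sw x y T, sw_mem_sh hxy hT, ?_⟩
      unfold sw
      split_ifs with hc'
      · have hxZ : x ∉ Z := fun h => hc'.2 (hZT h)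
        have hyZ : y ∉ Z := fun h => hq ⟨h, hxZ⟩
        intro e he
        refine mem_insert_of_mem (mem_erase.2 ⟨fun h => hyZ (h ▸ he), hZT he⟩)
      · exact hZT
  · refine ⟨⟨sw x y T, sw_mem_sh hxy hT, ?_⟩, ?_⟩
    · intro e he
      have hey : e ≠ y := fun h => h2 (h ▸ he)
      by_cases hex : e = x
      · subst hex
        unfold sw
        split_ifs with hc'
        · exact mem_insert_self _ _
        · by_contra hx
          exact hc' ⟨hZT (mem_insert_self _ _), hx⟩
      · have heT : e ∈ T := hZT (mem_insert_of_mem (mem_erase.2 ⟨hex, he⟩))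
        unfold sw
        split_ifs with hc'
        · exact mem_insert_of_mem (mem_erase.2 ⟨hey, heT⟩)
        · exact heT
    · rw [card_insert_of_notMem (by simp [h2]), card_erase_add_one h1] at hc
      exact hc

/-- The weight that shifts decrease. -/
def wt (A : Fam) : ℕ := ∑ T ∈ A, ∑ e ∈ T, e

lemma sum_sw {x y : ℕ} {T : Finset ℕ} (hy : y ∈ T) (hx : x ∉ T) :
    ∑ e ∈ insert x (T.erase y), e + y = ∑ e ∈ T, e + x := by
  rw [sum_insert (by simp [hx]), ← add_sum_erase T (fun e => e) hy]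
  ring

lemma exists_shift {A : Fam} (h : ¬ Shifted 0 A) :
    ∃ x y : ℕ, x ≠ y ∧ wt (sh x y A) < wt A := by
  unfold Shifted at h
  simp only [Nat.zero_le, implies_true, true_and, not_forall] at h
  obtain ⟨T, hT, y, hy, x, -, hxy, hx, hno⟩ := h
  refine ⟨x, y, by omega, ?_⟩
  unfold wt sh
  rw [sum_image (tau_injOn x y A)]
  apply sum_lt_sum
  · intro U hU
    unfold tau
    split_ifs
    · exact le_rfl
    · unfold sw
      split_ifs with hc
      · have := sum_sw hc.1 hc.2
        omega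
      · exact le_rfl
  · refine ⟨T, hT, ?_⟩
    have e1 : sw x y T = insert x (T.erase y) := by unfold sw; rw [if_pos ⟨hy, hx⟩]
    unfold tau
    rw [e1, if_neg hno]
    have := sum_sw hy hx
    omega

lemma exists_shifted (k : ℕ) (A : Fam) (h : Sz A k) :
    ∃ B : Fam, Sz B k ∧ B.card = A.card ∧ Shifted 0 B ∧ (shadow B).card ≤ (shadow A).card := by
  induction hw : wt A using Nat.strong_induction_on generalizing A with
  | _ w ih =>
    by_cases hs : Shifted 0 A
    · exact ⟨A, h, rfl, hs, le_rfl⟩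
    · obtain ⟨x, y, hxy, hlt⟩ := exists_shift hs
      obtain ⟨B, h1, h2, h3, h4⟩ := ih _ (hw ▸ hlt) (sh x y A) (h.sh x y) rfl
      exact ⟨B, h1, by rw [h2, card_sh], h3, h4.trans (card_shadow_sh_le hxy A)⟩

end Pool.Agent.Lib.MP_79d03b_co
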