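import Pool.Agent.Lib.MP_79d03b_co.Basic

set_option autoImplicit false

open Finset

namespace Pool.Agent.Lib.MP_79d03b_co

/-- Minimum shadow size of a family of `t` sets of size `k`. -/
noncomputable def F (k t : ℕ) : ℕ :=
  sInf {m : ℕ | ∃ 𝒜 : Finset (Finset ℕ), 𝒜.card = t ∧
    (∀ A ∈ 𝒜, A.card = k) ∧ (Finset.shadow 𝒜).card = m}

lemma F_le {A : Fam} {k : ℕ} (h : Sz A k) : F k A.card ≤ (shadow A).card :=
  Nat.sInf_le ⟨A, rfl, h, rfl⟩

lemma exists_fam (k t : ℕ) : ∃ A : Fam, A.card = t ∧ Sz A (k + 1) := by
  refine ⟨(range t).image (fun i => insert (k + i) (range k)), ?_, ?_⟩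
  · rw [card_image_of_injective, card_range]
    intro i j hij
    have h1 : k + i ∈ insert (k + j) (range k) := by
      have : k + i ∈ insert (k + i) (range k) := mem_insert_self _ _
      simp only at hij
      rwa [hij] at this
    simp only [mem_insert, mem_range] at h1
    omega
  · intro T hT
    obtain ⟨i, -, rfl⟩ := mem_image.1 hT
    rw [card_insert_of_notMem (by simp), card_range]

lemma F_spec (k t : ℕ) :
    ∃ A : Fam, A.card = t ∧ Sz A (k + 1) ∧ (shadow A).card = F (k + 1) t := by
  obtain ⟨A, h1, h2⟩ := exists_fam k t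
  have hne : {m : ℕ | ∃ 𝒜 : Finset (Finset ℕ), 𝒜.card = t ∧
      (∀ A ∈ 𝒜, A.card = k + 1) ∧ (Finset.shadow 𝒜).card = m}.Nonempty := ⟨_, A, h1, h2, rfl⟩
  exact Nat.sInf_mem hne

lemma F_zero_left (t : ℕ) : F 0 t = 0 := by
  unfold F
  rw [Nat.sInf_eq_zero]
  by_cases h : ∃ A : Fam, A.card = t ∧ Sz A 0
  · obtain ⟨A, h1, h2⟩ := h
    left
    exact ⟨A, h1, h2, by rw [shadow_of_sz_zero h2, card_empty]⟩
  · right
    ext m
    simp only [Set.mem_ofPred_eq, Set.mem_empty_iff_false, iff_false]
    rintro ⟨A, h1, h2, -⟩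
    exact h ⟨A, h1, h2⟩

lemma F_zero_right (k : ℕ) : F k 0 = 0 := by
  have := F_le (A := ∅) (k := k) (fun T hT => by simp at hT)
  simpa using this

lemma F_mono (k : ℕ) {s t : ℕ} (h : s ≤ t) : F k s ≤ F k t := by
  cases k with
  | zero => rw [F_zero_left, F_zero_left]
  | succ k =>
    obtain ⟨A, h1, h2, h3⟩ := F_spec k t
    obtain ⟨B, hB, hc⟩ := exists_subset_card_eq (s := A) (n := s) (by omega)
    have := F_le (h2.mono hB)
    rw [hc] at this
    rw [← h3]
    exact this.trans (card_le_card (shadow_mono hB))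

lemma card_shadow_singleton (T : Finset ℕ) : (shadow {T}).card = T.card := by
  have : shadow {T} = T.image T.erase := by simp [shadow]
  rw [this, card_image_of_injOn]
  exact erase_injOn T

lemma F_one_right (k : ℕ) : F k 1 = k := by
  cases k with
  | zero => exact F_zero_left 1
  | succ k =>
    obtain ⟨A, h1, h2, h3⟩ := F_spec k 1
    obtain ⟨T, rfl⟩ := card_eq_one.1 h1
    rw [← h3, card_shadow_singleton, h2 T (mem_singleton_self T)]

lemma F_one_left_le (t : ℕ) : F 1 t ≤ 1 := by
  obtain ⟨A, h1, h2, h3⟩ := F_spec 0 t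
  rw [← h3]
  have : shadow A ⊆ {∅} := by
    intro T hT
    have := h2.shadow T hT
    simpa using this
  exact (card_le_card this).trans (by simp)

/-- The degree of the smallest point in the extremal family. -/
noncomputable def D (k t : ℕ) : ℕ := sInf {d : ℕ | F k (t - d) ≤ d}

lemma D_le {k t d : ℕ} (h : F k (t - d) ≤ d) : D k t ≤ d := Nat.sInf_le h

lemma D_spec (k t : ℕ) : F k (t - D k t) ≤ D k t := by
  have hne : {d : ℕ | F k (t - d) ≤ d}.Nonempty := ⟨t, by simp [F_zero_right]⟩
  exact Nat.sInf_mem hne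

lemma D_le_self (k t : ℕ) : D k t ≤ t := D_le (by simp [F_zero_right])

lemma lt_F_of_lt_D {k t d : ℕ} (h : d < D k t) : d < F k (t - d) := by
  by_contra hc
  have := D_le (not_lt.1 hc)
  omega

lemma D_mono (k : ℕ) {s t : ℕ} (h : s ≤ t) : D k s ≤ D k t :=
  D_le ((F_mono k (by omega)).trans (D_spec k t))

lemma D_succ_le (k t : ℕ) : D k (t + 1) ≤ D k t + 1 := by
  apply D_le
  have := D_spec k t
  rw [show t + 1 - (D k t + 1) = t - D k t by omega]
  omega

lemma sub_D_mono (k : ℕ) {s t : ℕ} (h : s ≤ t) : s - D k s ≤ t - D k t := by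
  induction h with
  | refl => exact le_rfl
  | step _ ih =>
    rename_i m _
    have h1 := D_succ_le k m
    have h2 := D_le_self k m
    simp only [Nat.succ_eq_add_one]
    omega

lemma D_pos (k t : ℕ) : 1 ≤ D (k + 1) (t + 1) := by
  by_contra hc
  have h0 : D (k + 1) (t + 1) = 0 := by omega
  have h1 := D_spec (k + 1) (t + 1)
  rw [h0] at h1
  have h2 := F_mono (k + 1) (show 1 ≤ t + 1 - 0 by omega)
  rw [F_one_right] at h2
  omega

lemma D_one_le (t : ℕ) : D 1 t ≤ 1 := D_le (F_one_left_le _)

lemma D_add (k d : ℕ) : D k (d + F k d) = F k d := by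
  apply le_antisymm
  · apply D_le
    rw [Nat.add_sub_cancel]
  · have h1 := D_spec k (d + F k d)
    by_contra hc
    have h2 := F_mono k (show d ≤ d + F k d - D k (d + F k d) by omega)
    omega

lemma D_le_card {A : Fam} {k a : ℕ} (h : Sz A k) (hc : Cone a A) :
    D k A.card ≤ (A.memberSubfamily a).card := by
  apply D_le
  have h1 := card_memberSubfamily_add_card_nonMemberSubfamily a A
  have h2 := F_le (h.non a)
  have h3 := card_le_card hc
  rw [show A.card - (A.memberSubfamily a).card = (A.nonMemberSubfamily a).card by omega]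
  omega

lemma F_lower (k t : ℕ) : D (k + 1) t + F k (D (k + 1) t) ≤ F (k + 1) t := by
  obtain ⟨A, h1, h2, h3⟩ := F_spec k t
  obtain ⟨B, g1, g2, g3, g4⟩ := exists_shifted _ A h2
  have e1 := g3.cone.card_shadow
  have e2 := D_le_card g1 g3.cone
  have e3 := F_le (g1.mem 0)
  rw [g2, h1] at e2
  have e4 := F_mono k e2
  omega

/-- The extremal (colex initial) families on the ground set `[m, ∞)`. -/
noncomputable def I : ℕ → ℕ → ℕ → Fam
  | 0, 0, _ => ∅
  | 0, _ + 1, _ => {∅}
  | _ + 1, 0, _ => ∅
  | k + 1, t + 1, m => (I k (D (k + 1) (t + 1)) (m + 1)).image (insert m) ∪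
      I (k + 1) (t + 1 - D (k + 1) (t + 1)) (m + 1)
termination_by k t _ => (k, t)
decreasing_by
  · exact Prod.Lex.left _ _ (by omega)
  · have := D_pos k t
    exact Prod.Lex.right _ (by omega)

lemma I_zero (k m : ℕ) : I k 0 m = ∅ := by
  cases k <;> rw [I]

lemma I_succ (k t m : ℕ) : I (k + 1) t m = (I k (D (k + 1) t) (m + 1)).image (insert m) ∪
    I (k + 1) (t - D (k + 1) t) (m + 1) := by
  cases t with
  | zero =>
    have : D (k + 1) 0 = 0 := by have := D_le_self (k + 1) 0; omega
    simp [this, I_zero]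
  | succ t => rw [I]

lemma sub_D_lt (k t : ℕ) : t + 1 - D (k + 1) (t + 1) < t + 1 := by
  have := D_pos k t
  omega

lemma I_ge (k : ℕ) : ∀ t m : ℕ, ∀ T ∈ I k t m, ∀ y ∈ T, m ≤ y := by
  induction k with
  | zero =>
    intro t m T hT y hy
    cases t with
    | zero => simp [I_zero] at hT
    | succ t =>
      rw [I] at hT
      rw [mem_singleton.1 hT] at hy
      simp at hy
  | succ k ih =>
    intro t
    induction t using Nat.strong_induction_on with
    | _ t iht =>
      intro m T hT y hy
      cases t with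
      | zero => simp [I_zero] at hT
      | succ t =>
        rw [I_succ, mem_union, mem_image] at hT
        rcases hT with ⟨U, hU, rfl⟩ | hT
        · rcases mem_insert.1 hy with rfl | hy
          · exact le_rfl
          · have := ih _ _ U hU y hy
            omega
        · have := iht _ (sub_D_lt k t) _ T hT y hy
          omega

lemma I_notMem {k t m : ℕ} {T : Finset ℕ} (hT : T ∈ I k t (m + 1)) : m ∉ T := fun h => by
  have := I_ge k t (m + 1) T hT m h
  omega

lemma non_of_notMem {A : Fam} {a : ℕ} (h : ∀ T ∈ A, a ∉ T) : A.nonMemberSubfamily a = A := by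
  ext T
  rw [mem_nonMemberSubfamily]
  exact ⟨fun g => g.1, fun g => ⟨g, h T g⟩⟩

lemma mem_of_notMem {A : Fam} {a : ℕ} (h : ∀ T ∈ A, a ∉ T) : A.memberSubfamily a = ∅ := by
  ext T
  rw [mem_memberSubfamily]
  simp only [notMem_empty, iff_false, not_and, not_not]
  intro g
  exact absurd (mem_insert_self _ _) (h _ g)

lemma mem_join {A B : Fam} {a : ℕ} (hA : ∀ T ∈ A, a ∉ T) (hB : ∀ T ∈ B, a ∉ T) :
    (A.image (insert a) ∪ B).memberSubfamily a = A := by
  rw [memberSubfamily_union, memberSubfamily_image_insert hA, mem_of_notMem hB, union_empty]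

lemma non_join {A B : Fam} {a : ℕ} (hB : ∀ T ∈ B, a ∉ T) :
    (A.image (insert a) ∪ B).nonMemberSubfamily a = B := by
  rw [nonMemberSubfamily_union, nonMemberSubfamily_image_insert, non_of_notMem hB, empty_union]

lemma Sz.join {A B : Fam} {a k : ℕ} (hA : ∀ T ∈ A, a ∉ T) (h1 : Sz A k) (h2 : Sz B (k + 1)) :
    Sz (A.image (insert a) ∪ B) (k + 1) := by
  intro T hT
  rcases mem_union.1 hT with hT | hT
  · obtain ⟨U, hU, rfl⟩ := mem_image.1 hT
    rw [card_insert_of_notMem (hA U hU), h1 U hU]
  · exact h2 T hT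

lemma I_mem (k t m : ℕ) : (I (k + 1) t m).memberSubfamily m = I k (D (k + 1) t) (m + 1) := by
  rw [I_succ, mem_join (fun _ => I_notMem) (fun _ => I_notMem)]

lemma I_non (k t m : ℕ) :
    (I (k + 1) t m).nonMemberSubfamily m = I (k + 1) (t - D (k + 1) t) (m + 1) := by
  rw [I_succ, non_join (fun _ => I_notMem)]

lemma I_sz (k : ℕ) : ∀ t m : ℕ, Sz (I k t m) k := by
  induction k with
  | zero =>
    intro t m T hT
    cases t with
    | zero => simp [I_zero] at hT
    | succ t =>
      rw [I] at hT
      rw [mem_singleton.1 hT, card_empty]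
  | succ k ih =>
    intro t
    induction t using Nat.strong_induction_on with
    | _ t iht =>
      intro m
      cases t with
      | zero => intro T hT; simp [I_zero] at hT
      | succ t =>
        rw [I_succ]
        exact Sz.join (fun _ => I_notMem) (ih _ _) (iht _ (sub_D_lt k t) _)

lemma I_card (k : ℕ) : ∀ t m : ℕ, (k = 0 → t ≤ 1) → (I k t m).card = t := by
  induction k with
  | zero =>
    intro t m h
    have := h rfl
    cases t with
    | zero => simp [I_zero]
    | succ t =>
      rw [I, card_singleton]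
      omega
  | succ k ih =>
    intro t
    induction t using Nat.strong_induction_on with
    | _ t iht =>
      intro m _
      cases t with
      | zero => simp [I_zero]
      | succ t =>
        rw [← card_memberSubfamily_add_card_nonMemberSubfamily m, I_mem, I_non, ih,
          iht _ (sub_D_lt k t) _ (by omega)]
        · have := D_le_self (k + 1) (t + 1)
          omega
        · rintro rfl
          exact D_one_le _

lemma I_mono (k : ℕ) : ∀ t s m : ℕ, s ≤ t → I k s m ⊆ I k t m := by
  induction k with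
  | zero =>
    intro t s m h
    cases s with
    | zero => simp [I_zero]
    | succ s =>
      obtain ⟨t, rfl⟩ : ∃ u, t = u + 1 := ⟨t - 1, by omega⟩
      rw [I, I]
  | succ k ih =>
    intro t
    induction t using Nat.strong_induction_on with
    | _ t iht =>
      intro s m h
      cases t with
      | zero =>
        have : s = 0 := by omega
        subst this
        exact subset_rfl
      | succ t =>
        rw [I_succ k s, I_succ k (t + 1)]
        apply union_subset_union
        · exact image_subset_image (ih _ _ _ (D_mono _ h))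
        · exact iht _ (sub_D_lt k t) _ _ (sub_D_mono _ h)

lemma I_zero_left (t m m' : ℕ) : I 0 t m = I 0 t m' := by
  cases t with
  | zero => simp [I_zero]
  | succ t => rw [I, I]

lemma I_shadow (k : ℕ) : ∀ t m : ℕ, shadow (I (k + 1) t m) = I k (F (k + 1) t) m ∧
    F (k + 1) t = D (k + 1) t + F k (D (k + 1) t) := by
  induction k using Nat.strong_induction_on with
  | _ k ih =>
    have hcard : ∀ s m : ℕ, (shadow (I k s m)).card = F k s := by
      intro s m
      cases k with
      | zero => rw [shadow_of_sz_zero (I_sz 0 s m), card_empty, F_zero_left]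
      | succ k =>
        rw [(ih k (by omega) s m).1, I_card]
        rintro rfl
        exact F_one_left_le _
    intro t
    induction t using Nat.strong_induction_on with
    | _ t iht =>
      intro m
      cases t with
      | zero =>
        have : D (k + 1) 0 = 0 := by have := D_le_self (k + 1) 0; omega
        simp [this, I_zero, F_zero_right]
      | succ t =>
        have e1 : (shadow (I (k + 1) (t + 1) m)).memberSubfamily m =
            shadow (I k (D (k + 1) (t + 1)) (m + 1)) := by rw [mem_shadow_eq, I_mem]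
        have e2 : (shadow (I (k + 1) (t + 1) m)).nonMemberSubfamily m =
            I k (D (k + 1) (t + 1)) (m + 1) := by
          rw [non_shadow_eq, I_mem, I_non, (iht _ (sub_D_lt k t) _).1]
          exact union_eq_left.2 (I_mono _ _ _ _ (D_spec _ _))
        have e3 : F (k + 1) (t + 1) = D (k + 1) (t + 1) + F k (D (k + 1) (t + 1)) := by
          apply le_antisymm _ (F_lower _ _)
          have h1 := F_le (I_sz (k + 1) (t + 1) m)
          rw [I_card _ _ _ (by omega),
            ← card_memberSubfamily_add_card_nonMemberSubfamily m (shadow _), e1, e2, hcard,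
            I_card] at h1
          · omega
          · rintro rfl
            exact D_one_le _
        refine ⟨fam_ext m ?_ ?_, e3⟩
        · rw [e1, e3]
          cases k with
          | zero =>
            rw [shadow_of_sz_zero (I_sz 0 _ _), I_zero_left _ m (m + 1),
              mem_of_notMem (fun _ => I_notMem)]
          | succ k => rw [I_mem, D_add, (ih k (by omega) _ _).1]
        · rw [e2, e3]
          cases k with
          | zero =>
            rw [F_zero_left, I_zero_left _ m (m + 1), non_of_notMem (fun _ => I_notMem)]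
            rfl
          | succ k => rw [I_non, D_add, Nat.add_sub_cancel]

lemma F_rec (k t : ℕ) : F (k + 1) t = D (k + 1) t + F k (D (k + 1) t) := (I_shadow k t 0).2

lemma card_shadow_I (k s m : ℕ) : (shadow (I k s m)).card = F k s := by
  cases k with
  | zero => rw [shadow_of_sz_zero (I_sz 0 s m), card_empty, F_zero_left]
  | succ k =>
    rw [(I_shadow k s m).1, I_card]
    rintro rfl
    exact F_one_left_le _

/-- Combining an extremal link with an extremal deletion. -/
lemma F_comb (k α d : ℕ) (hd : k = 0 → d ≤ 1) :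
    F (k + 1) (α + d) ≤ F k d + max (F (k + 1) α) d := by
  have hs : Sz ((I k d 1).image (insert 0) ∪ I (k + 1) α 1) (k + 1) :=
    Sz.join (fun _ => I_notMem) (I_sz _ _ _) (I_sz _ _ _)
  have h1 := F_le hs
  rw [← card_memberSubfamily_add_card_nonMemberSubfamily 0 (_ ∪ _), card_shadow_eq _ 0,
    mem_join (fun _ => I_notMem) (fun _ => I_notMem), non_join (fun _ => I_notMem),
    I_card _ _ _ hd, I_card _ _ _ (by omega), card_shadow_I, (I_shadow _ _ _).1, add_comm d α] at h1
  refine h1.trans (Nat.add_le_add_left ?_ _)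
  have hsub : I k d 1 ∪ I k (F (k + 1) α) 1 ⊆ I k (max (F (k + 1) α) d) 1 :=
    union_subset (I_mono _ _ _ _ (le_max_right _ _)) (I_mono _ _ _ _ (le_max_left _ _))
  refine (card_le_card hsub).trans (le_of_eq (I_card _ _ _ ?_))
  rintro rfl
  exact max_le (F_one_left_le _) (hd rfl)

lemma shadow_image {φ : ℕ → ℕ} (hφ : Function.Injective φ) (A : Fam) :
    shadow (A.image (image φ)) = (shadow A).image (image φ) := by
  ext Z
  simp only [mem_shadow_iff, mem_image]
  constructor
  · rintro ⟨_, ⟨T, hT, rfl⟩, b, hb, rfl⟩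
    obtain ⟨a, ha, rfl⟩ := mem_image.1 hb
    exact ⟨T.erase a, ⟨T, hT, a, ha, rfl⟩, by rw [image_erase hφ]⟩
  · rintro ⟨_, ⟨T, hT, a, ha, rfl⟩, rfl⟩
    exact ⟨_, ⟨T, hT, rfl⟩, φ a, mem_image_of_mem _ ha, by rw [image_erase hφ]⟩

/-- Gluing two extremal families along a common member. -/
lemma F_glue (j ρ β : ℕ) :
    F (j + 1) (ρ + β + 1) + (j + 1) ≤ F (j + 1) (ρ + 1) + F (j + 1) (β + 1) := by
  obtain ⟨Y, hY⟩ := card_eq_one.1 (I_card (j + 1) 1 0 (by omega))
  set R := I (j + 1) (ρ + 1) 0 with hR
  set B := I (j + 1) (β + 1) 0 with hB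
  have hYR : Y ∈ R := I_mono _ _ 1 _ (by omega) (by rw [hY]; exact mem_singleton_self Y)
  have hYB : Y ∈ B := I_mono _ _ 1 _ (by omega) (by rw [hY]; exact mem_singleton_self Y)
  have hYc : Y.card = j + 1 := I_sz _ _ _ Y hYR
  obtain ⟨N, hN⟩ : ∃ N : ℕ, ∀ T ∈ R, ∀ e ∈ T, e < N := by
    refine ⟨(R.sup id).sup id + 1, fun T hT e he => ?_⟩
    have h1 : e ∈ R.sup id := mem_sup.2 ⟨T, hT, he⟩
    have h2 := le_sup (f := id) h1
    simp only [id] at h2
    omega
  let φ : ℕ → ℕ := fun e => if e ∈ Y then e else e + N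
  have hφ : Function.Injective φ := by
    intro a b hab
    simp only [φ] at hab
    split_ifs at hab with h1 h2 h2
    · exact hab
    · have := hN Y hYR a h1
      omega
    · have := hN Y hYR b h2
      omega
    · omega
  have hφY : Y.image φ = Y := by
    ext e
    simp only [mem_image, φ]
    constructor
    · rintro ⟨a, ha, rfl⟩
      rw [if_pos ha]; exact ha
    · intro he
      exact ⟨e, he, by rw [if_pos he]⟩
  set B' := B.image (image φ) with hB'
  have hinj : Function.Injective (image φ : Finset ℕ → Finset ℕ) := image_injective hφ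
  have hcB' : B'.card = β + 1 := by
    rw [hB', card_image_of_injective _ hinj, hB, I_card _ _ _ (by omega)]
  have hsB' : Sz B' (j + 1) := by
    intro T hT
    obtain ⟨U, hU, rfl⟩ := mem_image.1 hT
    rw [card_image_of_injective _ hφ]
    exact I_sz _ _ _ U hU
  have hYB' : Y ∈ B' := mem_image.2 ⟨Y, hYB, hφY⟩
  have hint : R ∩ B' = {Y} := by
    ext T
    rw [mem_inter, mem_singleton]
    constructor
    · rintro ⟨h1, h2⟩
      obtain ⟨U, hU, rfl⟩ := mem_image.1 h2
      have hUY : U ⊆ Y := by
        intro e he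
        by_contra hc
        have h3 := hN _ h1 (φ e) (mem_image_of_mem _ he)
        simp only [φ, if_neg hc] at h3
        omega
      have hUc : U.card = j + 1 := I_sz _ _ _ U hU
      rw [eq_of_subset_of_card_le hUY (by omega), hφY]
    · rintro rfl
      exact ⟨hYR, hYB'⟩
  have hsU : Sz (R ∪ B') (j + 1) := by
    intro T hT
    rcases mem_union.1 hT with hT | hT
    · exact I_sz _ _ _ T hT
    · exact hsB' T hT
  have hcR : R.card = ρ + 1 := I_card _ _ _ (by omega)
  have hcU : (R ∪ B').card = ρ + β + 1 := by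
    have := card_union_add_card_inter R B'
    rw [hint, card_singleton] at this
    omega
  have h1 := F_le hsU
  rw [hcU, shadow_union] at h1
  have h2 := card_union_add_card_inter (shadow R) (shadow B')
  have h3 : shadow {Y} ⊆ shadow R ∩ shadow B' :=
    subset_inter (shadow_mono (singleton_subset_iff.2 hYR))
      (shadow_mono (singleton_subset_iff.2 hYB'))
  have h4 := card_le_card h3
  rw [card_shadow_singleton, hYc] at h4
  have h5 : (shadow R).card = F (j + 1) (ρ + 1) := card_shadow_I _ _ _
  have h6 : (shadow B').card = F (j + 1) (β + 1) := by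
    rw [hB', shadow_image hφ, card_image_of_injective _ hinj]
    exact card_shadow_I _ _ _
  omega

/-- Minimum size of the `j`-th shadow. -/
noncomputable def Phi : ℕ → ℕ → ℕ → ℕ
  | 0, _, t => t
  | j + 1, k, t => Phi j (k - 1) (F k t)

lemma Phi_mono (j : ℕ) : ∀ (k : ℕ) {s t : ℕ}, s ≤ t → Phi j k s ≤ Phi j k t := by
  induction j with
  | zero => intro k s t h; exact h
  | succ j ih => intro k s t h; exact ih _ (F_mono k h)

lemma Phi_zero_right (j : ℕ) : ∀ k : ℕ, Phi j k 0 = 0 := by
  induction j with
  | zero => intro k; rfl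
  | succ j ih => intro k; rw [Phi, F_zero_right, ih]

lemma Phi_zero_left (j t : ℕ) : Phi (j + 1) 0 t = 0 := by
  rw [Phi, F_zero_left, Phi_zero_right]

lemma Phi_le (j : ℕ) : ∀ {k : ℕ} {A : Fam}, Sz A k → Phi j k A.card ≤ (shadow^[j] A).card := by
  induction j with
  | zero => intro k A _; exact le_rfl
  | succ j ih =>
    intro k A h
    rw [Phi, Function.iterate_succ_apply]
    exact (Phi_mono j _ (F_le h)).trans (ih h.shadow)

lemma Phi_rec (j : ℕ) : ∀ k t : ℕ,
    Phi (j + 1) (k + 1) t = Phi (j + 1) k (D (k + 1) t) + Phi j k (D (k + 1) t) := by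
  induction j with
  | zero =>
    intro k t
    simp only [Phi]
    rw [F_rec, add_comm]
  | succ j ih =>
    intro k t
    rw [Phi, F_rec, Nat.add_sub_cancel]
    cases k with
    | zero => simp [Phi_zero_left]
    | succ k =>
      rw [ih, D_add]
      rfl

end Pool.Agent.Lib.MP_79d03b_co
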