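import Pool.Agent.Lib.MP_79d03b_co.KK

set_option autoImplicit false

open Finset

namespace Pool.Agent.Lib.MP_79d03b_co

/-- A shifted family with minimum shadow has all iterated shadows minimum. -/
lemma shifted_extremal (k : ℕ) : ∀ (m : ℕ) (B : Fam), Shifted m B → Sz B k →
    (shadow B).card ≤ F k B.card → ∀ j, (shadow^[j] B).card ≤ Phi j k B.card := by
  induction k with
  | zero =>
    intro m B _ hz _ j
    cases j with
    | zero => exact le_rfl
    | succ j =>
      rw [Function.iterate_succ_apply, shadow_of_sz_zero hz, shadow_iterate_empty, card_empty]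
      exact Nat.zero_le _
  | succ k ih =>
    intro m B hs hz hF j
    cases j with
    | zero => exact le_rfl
    | succ j =>
      have e1 := hs.cone.card_shadow
      have e2 := D_le_card hz hs.cone
      have e3 := F_le (hz.mem m)
      have e4 := F_mono k e2
      rw [F_rec] at hF
      have e5 : (B.memberSubfamily m).card = D (k + 1) B.card := by omega
      have e6 := ih (m + 1) _ hs.mem (hz.mem m) (by rw [e5]; omega)
      rw [hs.cone.card_iterate, Phi_rec, ← e5]
      exact Nat.add_le_add (e6 _) (e6 _)

lemma main_shifted (k : ℕ) : ∀ (m : ℕ) (A : Fam) (t j : ℕ), Shifted m A → Sz A k → t < A.card →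
    Phi j k t < (shadow^[j] A).card → F k t + j ≤ (shadow A).card := by
  induction k with
  | zero =>
    intro m A t j _ hz ht hP
    cases j with
    | zero => rw [F_zero_left]; exact Nat.zero_le _
    | succ j =>
      rw [Function.iterate_succ_apply, shadow_of_sz_zero hz, shadow_iterate_empty,
        card_empty] at hP
      omega
  | succ k ih =>
    intro m A t j hs hz ht hP
    cases j with
    | zero => exact (F_mono _ ht.le).trans (F_le hz)
    | succ j =>
      have e1 := hs.cone.card_shadow
      have e2 := (D_mono (k + 1) ht.le).trans (D_le_card hz hs.cone)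
      have e3 := card_memberSubfamily_add_card_nonMemberSubfamily m A
      rw [hs.cone.card_iterate, Phi_rec] at hP
      rcases e2.eq_or_lt with heq | hlt
      · exfalso
        rcases Nat.eq_zero_or_pos (A.memberSubfamily m).card with h0 | hpos
        · rw [card_eq_zero.1 h0, shadow_iterate_empty, shadow_iterate_empty] at hP
          simp at hP
        · have g1 := lt_F_of_lt_D (k := k + 1) (t := t) (d := (A.memberSubfamily m).card - 1)
            (by omega)
          have g0 := D_le_self (k + 1) t
          have g2 := F_mono (k + 1) (show t - ((A.memberSubfamily m).card - 1) ≤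
            (A.nonMemberSubfamily m).card by omega)
          have g3 := F_le (hz.non m)
          have g4 := card_le_card hs.cone
          have g5 : shadow (A.nonMemberSubfamily m) = A.memberSubfamily m :=
            eq_of_subset_of_card_le hs.cone (by omega)
          have g6 : F (k + 1) (A.nonMemberSubfamily m).card = D (k + 1) t := by omega
          have g7 := shifted_extremal (k + 1) (m + 1) _ hs.non (hz.non m) (by omega)
          have g8 : ∀ i, (shadow^[i] (A.memberSubfamily m)).card ≤ Phi i k (D (k + 1) t) := by
            intro i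
            have := g7 (i + 1)
            rw [Function.iterate_succ_apply, g5, Phi, g6, Nat.add_sub_cancel] at this
            exact this
          have := g8 j
          have := g8 (j + 1)
          omega
      · rw [F_rec]
        by_cases hc : Phi j k (D (k + 1) t) < (shadow^[j] (A.memberSubfamily m)).card
        · have := ih (m + 1) _ _ _ hs.mem (hz.mem m) hlt hc
          omega
        · have := ih (m + 1) _ _ (j + 1) hs.mem (hz.mem m) hlt (by omega)
          omega

lemma link_step {A : Fam} {k j a : ℕ} (hz : Sz A (k + 2)) (hne : (A.memberSubfamily a).Nonempty)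
    (h : F (k + 1) ((A.memberSubfamily a).card - 1) + j ≤ (shadow (A.memberSubfamily a)).card) :
    F (k + 2) (A.card - 1) + j ≤ (shadow A).card := by
  have e1 := card_shadow_eq A a
  have e2 := card_memberSubfamily_add_card_nonMemberSubfamily a A
  have e3 := card_pos.2 hne
  have e4 := F_comb (k + 1) (A.nonMemberSubfamily a).card ((A.memberSubfamily a).card - 1)
    (by omega)
  have e5 := F_le (hz.non a)
  have e6 := card_le_card (subset_union_left (s₁ := A.memberSubfamily a)
    (s₂ := shadow (A.nonMemberSubfamily a)))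
  have e7 := card_le_card (subset_union_right (s₁ := A.memberSubfamily a)
    (s₂ := shadow (A.nonMemberSubfamily a)))
  rw [show (A.nonMemberSubfamily a).card + ((A.memberSubfamily a).card - 1) = A.card - 1 by omega]
    at e4
  have e8 : max (F (k + 1 + 1) (A.nonMemberSubfamily a).card) ((A.memberSubfamily a).card - 1) ≤
      (A.memberSubfamily a ∪ shadow (A.nonMemberSubfamily a)).card :=
    max_le (e5.trans e7) (by omega)
  have e9 : F (k + 2) (A.card - 1) = F (k + 1 + 1) (A.card - 1) := rfl
  omega

lemma bad_base {A : Fam} {j x y : ℕ} (hz : Sz A (j + 2)) (hb : Bad A x y ∅) :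
    F (j + 2) (A.card - 1) + (j + 1) ≤ (shadow A).card := by
  obtain ⟨-, -, ⟨R0, hR0, hxR⟩, ⟨B0, hB0, hyB⟩, h5, h6⟩ := hb
  have hxR : x ∈ R0 := hxR (mem_insert_self _ _)
  have hyB : y ∈ B0 := hyB (mem_insert_self _ _)
  set R := A.memberSubfamily x with hR
  set N := A.nonMemberSubfamily x with hN
  set B := N.memberSubfamily y with hB
  set Z := N.nonMemberSubfamily y with hZ
  have hRy : ∀ T ∈ R, y ∉ T := by
    intro T hT hy
    obtain ⟨h1, -⟩ := mem_memberSubfamily.1 hT
    exact h5 _ h1 (empty_subset _) (mem_insert_self _ _) (mem_insert_of_mem hy)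
  have hRne : R.Nonempty := ⟨R0.erase x, mem_memberSubfamily.2 ⟨by rwa [insert_erase hxR], by simp⟩⟩
  have hBne : B.Nonempty := by
    refine ⟨B0.erase y, mem_memberSubfamily.2 ⟨?_, by simp⟩⟩
    rw [insert_erase hyB]
    exact mem_nonMemberSubfamily.2 ⟨hB0, fun hx => h5 _ hB0 (empty_subset _) hx hyB⟩
  have hdisj : Disjoint R B := by
    rw [disjoint_left]
    intro T h1 h2
    obtain ⟨g1, g2⟩ := mem_memberSubfamily.1 h1
    obtain ⟨g3, g4⟩ := mem_memberSubfamily.1 h2
    exact h6 T g2 g4 (empty_subset _) g1 (mem_nonMemberSubfamily.1 g3).1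
  have e1 := card_shadow_eq A x
  rw [← hR, ← hN, ← card_memberSubfamily_add_card_nonMemberSubfamily y (R ∪ shadow N),
    memberSubfamily_union, nonMemberSubfamily_union, mem_shadow_eq, non_shadow_eq, ← hB, ← hZ,
    mem_of_notMem hRy, non_of_notMem hRy, empty_union, ← union_assoc] at e1
  have e2 := card_memberSubfamily_add_card_nonMemberSubfamily x A
  have e3 := card_memberSubfamily_add_card_nonMemberSubfamily y N
  rw [← hR, ← hN] at e2
  rw [← hB, ← hZ] at e3
  have e4 := card_pos.2 hRne
  have e5 := card_pos.2 hBne
  have e6 := F_glue j (R.card - 1) (B.card - 1)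
  rw [show R.card - 1 + 1 = R.card by omega, show B.card - 1 + 1 = B.card by omega] at e6
  have e7 := F_le (hz.mem x)
  have e8 := F_le ((hz.non x).mem y)
  have e9 := F_le ((hz.non x).non y)
  rw [← hR] at e7
  rw [← hN, ← hB] at e8
  rw [← hN, ← hZ] at e9
  have e10 := F_comb (j + 1) Z.card (R.card - 1 + (B.card - 1) + 1) (by omega)
  rw [show Z.card + (R.card - 1 + (B.card - 1) + 1) = A.card - 1 by omega] at e10
  have e11 := card_le_card (subset_union_left (s₁ := R ∪ B) (s₂ := shadow Z))
  have e12 := card_le_card (subset_union_right (s₁ := R ∪ B) (s₂ := shadow Z))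
  rw [card_union_of_disjoint hdisj] at e11
  have e13 : max (F (j + 1 + 1) Z.card) (R.card - 1 + (B.card - 1) + 1) ≤
      (R ∪ B ∪ shadow Z).card := max_le (e9.trans e12) (by omega)
  have e14 : F (j + 2) (A.card - 1) = F (j + 1 + 1) (A.card - 1) := rfl
  omega

lemma bad_bound {j x y : ℕ} (P : Finset ℕ) : ∀ A : Fam, Sz A (P.card + j + 2) →
    Bad A x y P → F (P.card + j + 2) (A.card - 1) + (j + 1) ≤ (shadow A).card := by
  induction P using Finset.induction_on with
  | empty =>
    intro A hz hb
    simp only [card_empty, Nat.zero_add] at hz ⊢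
    exact bad_base hz hb
  | insert p P hp ih =>
    intro A hz hb
    rw [card_insert_of_notMem hp] at hz ⊢
    rw [show P.card + 1 + j + 2 = (P.card + j + 1) + 2 by omega] at hz ⊢
    obtain ⟨h1, h2, ⟨R0, hR0, hxR⟩, ⟨B0, hB0, hyB⟩, h5, h6⟩ := hb
    simp only [mem_insert, not_or] at h1 h2
    have hpR : p ∈ R0 := hxR (mem_insert_of_mem (mem_insert_self _ _))
    have hpB : p ∈ B0 := hyB (mem_insert_of_mem (mem_insert_self _ _))
    have hR1 : R0.erase p ∈ A.memberSubfamily p :=
      mem_memberSubfamily.2 ⟨by rwa [insert_erase hpR], by simp⟩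
    have hB1 : B0.erase p ∈ A.memberSubfamily p :=
      mem_memberSubfamily.2 ⟨by rwa [insert_erase hpB], by simp⟩
    apply link_step (a := p) hz ⟨_, hR1⟩
    apply ih _ (hz.mem p)
    refine ⟨h1.2, h2.2, ⟨_, hR1, ?_⟩, ⟨_, hB1, ?_⟩, ?_, ?_⟩
    · intro e he
      refine mem_erase.2 ⟨?_, hxR ?_⟩
      · rcases mem_insert.1 he with rfl | he
        · exact h1.1
        · exact fun h => hp (h ▸ he)
      · rcases mem_insert.1 he with rfl | he
        · exact mem_insert_self _ _
        · exact mem_insert_of_mem (mem_insert_of_mem he)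
    · intro e he
      refine mem_erase.2 ⟨?_, hyB ?_⟩
      · rcases mem_insert.1 he with rfl | he
        · exact h2.1
        · exact fun h => hp (h ▸ he)
      · rcases mem_insert.1 he with rfl | he
        · exact mem_insert_self _ _
        · exact mem_insert_of_mem (mem_insert_of_mem he)
    · intro T hT hPT hx hy
      obtain ⟨g1, -⟩ := mem_memberSubfamily.1 hT
      exact h5 _ g1 (insert_subset_insert _ hPT) (mem_insert_of_mem hx) (mem_insert_of_mem hy)
    · intro T hx hy hPT g1 g2
      obtain ⟨g1, -⟩ := mem_memberSubfamily.1 g1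
      obtain ⟨g2, -⟩ := mem_memberSubfamily.1 g2
      rw [insert_comm] at g1 g2
      refine h6 (insert p T) ?_ ?_ (insert_subset_insert _ hPT) g1 g2
      · simp only [mem_insert, not_or]; exact ⟨h1.1, hx⟩
      · simp only [mem_insert, not_or]; exact ⟨h2.1, hy⟩

/-- Key theorem: if a family of more than `t` sets of size `k` has a `j`-th shadow larger than the
minimum possible for `t` sets, then its shadow exceeds the minimum for `t` sets by at least `j`. -/
theorem main_bound (k t j : ℕ) (A : Fam) (hz : Sz A k) (ht : t < A.card)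
    (hP : Phi j k t < (shadow^[j] A).card) : F k t + j ≤ (shadow A).card := by
  induction hw : wt A using Nat.strong_induction_on generalizing A with
  | _ w ih =>
    by_cases hs : Shifted 0 A
    · exact main_shifted k 0 A t j hs hz ht hP
    · obtain ⟨x, y, hxy, hlt⟩ := exists_shift hs
      by_cases hb : ∃ P : Finset ℕ, P.card + 1 + j = k ∧ Bad A x y P
      · obtain ⟨P, hP1, hP2⟩ := hb
        cases j with
        | zero => exact (F_mono _ ht.le).trans (F_le hz)
        | succ j =>
          obtain rfl : k = P.card + j + 2 := by omega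
          have h1 := bad_bound P A hz hP2
          have h2 := F_mono (P.card + j + 2) (show t ≤ A.card - 1 by omega)
          omega
      · have h1 := card_le_card (sh_iter_subset hxy hz (j := j) (fun P h1 h2 => hb ⟨P, h1, h2⟩))
        rw [card_sh] at h1
        have h2 := ih _ (hw ▸ hlt) (sh x y A) (hz.sh x y) (by rw [card_sh]; exact ht)
          (by omega) rfl
        exact h2.trans (card_shadow_sh_le hxy A)

/-- Cascade sums. -/
def casc (b : ℕ → ℕ) (n e : ℕ) : ℕ := ∑ i ∈ range n, (b i).choose (e + i)

/-- Strictly increasing on the first `n` indices. -/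
def Inc (b : ℕ → ℕ) (n : ℕ) : Prop := ∀ i, i + 1 < n → b i < b (i + 1)

lemma Inc.pos {b : ℕ → ℕ} {n : ℕ} (h : Inc b n) (h0 : 1 ≤ b 0) : ∀ i, i < n → 1 ≤ b i := by
  intro i
  induction i with
  | zero => intro _; exact h0
  | succ i ih =>
    intro hi
    have := h i hi
    omega

lemma Inc.pred {b : ℕ → ℕ} {n : ℕ} (h : Inc b n) (h0 : 1 ≤ b 0) : Inc (fun i => b i - 1) n := by
  intro i hi
  have h1 := h i hi
  have h2 := h.pos h0 i (by omega)
  simp only
  omega

lemma Inc.tail {b : ℕ → ℕ} {n : ℕ} (h : Inc b (n + 1)) : Inc (fun i => b (i + 1)) n :=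
  fun i hi => h (i + 1) (by omega)

lemma Inc.init {b : ℕ → ℕ} {n : ℕ} (h : Inc b (n + 1)) : Inc b n :=
  fun i hi => h i (by omega)

lemma casc_pascal {b : ℕ → ℕ} {n : ℕ} (h : Inc b n) (h0 : 1 ≤ b 0) (e : ℕ) :
    casc b n (e + 1) = casc (fun i => b i - 1) n (e + 1) + casc (fun i => b i - 1) n e := by
  unfold casc
  rw [← sum_add_distrib]
  apply sum_congr rfl
  intro i hi
  have h1 := h.pos h0 i (mem_range.1 hi)
  obtain ⟨c, hc⟩ : ∃ c, b i = c + 1 := ⟨b i - 1, by omega⟩
  simp only [hc, Nat.add_sub_cancel]
  rw [show e + 1 + i = (e + i) + 1 by omega, Nat.choose_succ_succ', add_comm]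

lemma casc_bot (b : ℕ → ℕ) (n e : ℕ) :
    casc b (n + 1) e = casc (fun i => b (i + 1)) n (e + 1) + (b 0).choose e := by
  unfold casc
  rw [sum_range_succ']
  congr 1
  apply sum_congr rfl
  intro i _
  rw [show e + (i + 1) = e + 1 + i by omega]

lemma casc_top (b : ℕ → ℕ) (n e : ℕ) :
    casc b (n + 1) e = casc b n e + (b n).choose (e + n) := by
  unfold casc
  rw [sum_range_succ]

lemma casc_le (b : ℕ → ℕ) (e : ℕ) (n : ℕ) : Inc b (n + 1) →
    casc b n (e + 1) ≤ (b n).choose (e + n) := by
  induction n with
  | zero => intro _; simp [casc]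
  | succ n ih =>
    intro h
    have h1 := ih h.init
    have h2 := h n (by omega)
    have h3 := Nat.choose_le_choose (e + n + 1) (show b n + 1 ≤ b (n + 1) by omega)
    rw [Nat.choose_succ_succ'] at h3
    rw [casc_top, show e + 1 + n = e + n + 1 by omega, show e + (n + 1) = e + n + 1 by omega]
    omega

lemma F_choose_le (a k : ℕ) : F (k + 1) (a.choose (k + 1)) ≤ a.choose k := by
  have hz : Sz (powersetCard (k + 1) (range a)) (k + 1) := fun T hT => (mem_powersetCard.1 hT).2
  have h1 := F_le hz
  rw [card_powersetCard, card_range] at h1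
  have h2 : shadow (powersetCard (k + 1) (range a)) ⊆ powersetCard k (range a) := by
    intro T hT
    have h3 := hz.shadow T hT
    obtain ⟨S, hS, hTS⟩ := exists_subset_of_mem_shadow hT
    exact mem_powersetCard.2 ⟨hTS.trans (mem_powersetCard.1 hS).1, by simpa using h3⟩
  have h4 := card_le_card h2
  rw [card_powersetCard, card_range] at h4
  omega

lemma F_casc_le (b : ℕ → ℕ) (e : ℕ) (n : ℕ) : Inc b n →
    F (e + n) (casc b n (e + 1)) ≤ casc b n e := by
  induction n with
  | zero => intro _; simp [casc, F_zero_right]
  | succ n ih =>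
    intro h
    have h1 := ih h.init
    have h2 := casc_le b e n h
    have h3 := F_choose_le (b n) (e + n)
    have h4 := F_comb (e + n) ((b n).choose (e + n + 1)) (casc b n (e + 1)) (by
      intro h0
      obtain rfl : n = 0 := by omega
      simp [casc])
    have h5 : max (F (e + n + 1) ((b n).choose (e + n + 1))) (casc b n (e + 1)) ≤
      (b n).choose (e + n) := max_le h3 h2
    rw [casc_top, casc_top, show e + 1 + n = e + n + 1 by omega,
      show e + (n + 1) = e + n + 1 by omega, add_comm (casc b n (e + 1))]
    omega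

lemma lt_D_of {k N M : ℕ} (h : M < F k (N + 1)) : M < D k (N + M + 1) := by
  by_contra hc
  have h1 := D_spec k (N + M + 1)
  have h2 := F_mono k (show N + 1 ≤ N + M + 1 - D k (N + M + 1) by omega)
  omega

lemma le_F_casc (n : ℕ) : ∀ (c e : ℕ) (b : ℕ → ℕ), b 0 = c → Inc b n → (0 < n → e ≤ b 0) →
    casc b n e + e ≤ F (e + n) (casc b n (e + 1) + 1) := by
  induction n with
  | zero =>
    intro c e b _ _ _
    simp [casc, F_one_right]
  | succ n ih =>
    intro c
    induction c with
    | zero =>
      intro e b hc h h0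
      obtain rfl : e = 0 := by have := h0 (by omega); omega
      have h1 := ih _ 1 (fun i => b (i + 1)) rfl h.tail (fun hn => by
        have := h 0 (by omega); omega)
      rw [casc_bot, casc_bot, hc]
      simp only [Nat.choose_zero_right, Nat.zero_add, Nat.add_zero] at h1 ⊢
      rw [add_comm 1 n] at h1
      simpa using h1
    | succ c ihc =>
      intro e b hc h h0
      have h0 := h0 (by omega)
      rcases h0.eq_or_lt with heq | hlt
      · have h1 := ih _ (e + 1) (fun i => b (i + 1)) rfl h.tail (fun hn => by
          have := h 0 (by omega); omega)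
        rw [casc_bot, casc_bot, ← heq, Nat.choose_self, Nat.choose_succ_self,
          show e + (n + 1) = e + 1 + n by omega]
        simp only [Nat.add_zero]
        omega
      · cases e with
        | zero =>
          have h1 := ih _ 1 (fun i => b (i + 1)) rfl h.tail (fun hn => by
            have := h 0 (by omega); omega)
          rw [casc_bot, casc_bot, Nat.choose_zero_right, show 0 + (n + 1) = 1 + n by omega]
          exact h1.trans (F_mono _ (by simp only [Nat.zero_add]; omega))
        | succ e =>
          have hp := h.pred (by omega)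
          have h1 := ihc (e + 1) (fun i => b i - 1) (by omega) hp
            (fun _ => by omega)
          have h2 := ihc e (fun i => b i - 1) (by omega) hp
            (fun _ => by omega)
          rw [casc_pascal h (by omega) (e + 1), casc_pascal h (by omega) e]
          have h3 := lt_D_of (k := e + 1 + (n + 1)) (N := casc (fun i => b i - 1) (n + 1) (e + 1 + 1))
            (M := casc (fun i => b i - 1) (n + 1) (e + 1)) (by omega)
          rw [show e + 1 + (n + 1) = (e + (n + 1)) + 1 by omega] at h3 ⊢
          rw [F_rec]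
          have h4 := F_mono (e + (n + 1)) (Nat.succ_le_of_lt h3)
          simp only [Nat.succ_eq_add_one] at h4
          omega

lemma Phi_jump (n e : ℕ) : ∀ b : ℕ → ℕ, Inc b n → e + 1 ≤ b 0 →
    Phi e (e + n) (casc b n (e + 1)) < Phi e (e + n) (casc b n (e + 1) + 1) := by
  induction e with
  | zero => intro b _ _; simp [Phi]
  | succ e ih =>
    intro b h h0
    have hp := h.pred (by omega)
    have h1 := ih (fun i => b i - 1) hp (by omega)
    have h2 := F_casc_le _ (e + 1) n hp
    have h3 := le_F_casc n _ (e + 1) (fun i => b i - 1) rfl hp (fun _ => by omega)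
    rw [casc_pascal h (by omega) (e + 1)]
    set N := casc (fun i => b i - 1) n (e + 1 + 1)
    set M := casc (fun i => b i - 1) n (e + 1)
    have h4 := lt_D_of (k := e + 1 + n) (N := N) (M := M) (by omega)
    have h5 : D (e + 1 + n) (N + M) ≤ M := D_le (by rw [Nat.add_sub_cancel]; exact h2)
    rw [show e + 1 + n = (e + n) + 1 by omega] at h4 h5 ⊢
    rw [Phi_rec, Phi_rec]
    have h6 := Phi_mono (e + 1) (e + n) (h5.trans h4.le)
    have h7 := Phi_mono e (e + n) h5
    have h8 := Phi_mono e (e + n) (Nat.succ_le_of_lt h4)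
    simp only [Nat.succ_eq_add_one] at h8
    omega

/-- The gap theorem in cascade form. -/
theorem gap (t n e s : ℕ) (b : ℕ → ℕ) (ht : 1 ≤ t) (h : Inc b n) (h0 : e + 1 ≤ b 0)
    (h1 : F (e + n + 1) (t - 1) ≤ casc b n (e + 1)) (h2 : casc b n (e + 1) < s)
    (h3 : s ≤ F (e + n + 1) (t - 1) + e) (A : Fam) (hA : A.card = t) (hz : Sz A (e + n + 1))
    (hs : (shadow A).card = s) : False := by
  have g1 : ¬ Phi (e + 1) (e + n + 1) (t - 1) < (shadow^[e + 1] A).card := fun hc => by
    have := main_bound _ _ _ A hz (by omega) hc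
    omega
  rw [Phi, Function.iterate_succ_apply, Nat.add_sub_cancel] at g1
  have g2 := Phi_le e hz.shadow
  rw [Nat.add_sub_cancel, hs] at g2
  have g3 := Phi_jump n e b h h0
  have g4 := Phi_mono e (e + n) h1
  have g5 := Phi_mono e (e + n) (Nat.succ_le_of_lt h2)
  simp only [Nat.succ_eq_add_one] at g5
  omega

end Pool.Agent.Lib.MP_79d03b_co
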